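import Pool.Agent.Helper89.Vol.Goals

set_option autoImplicit false

namespace Pool.Agent.Helper48.Vol.PkHAD

theorem had (a b c d e f g h i : ℝ) (hu : a ^ 2 + b ^ 2 + c ^ 2 ≤ 1) (hv : d ^ 2 + e ^ 2 + f ^ 2 ≤ 1)
    (hw : g ^ 2 + h ^ 2 + i ^ 2 ≤ 1) :
    (a * (e * i - f * h) - b * (d * i - f * g) + c * (d * h - e * g)) ^ 2 ≤ 1 := by
  set p := e * i - f * h with hp
  set q := f * g - d * i with hq
  set r := d * h - e * g with hr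
  have h1 : (a * p + b * q + c * r) ^ 2 ≤ (a ^ 2 + b ^ 2 + c ^ 2) * (p ^ 2 + q ^ 2 + r ^ 2) := by
    nlinarith [sq_nonneg (a * q - b * p), sq_nonneg (a * r - c * p), sq_nonneg (b * r - c * q)]
  have h2 : p ^ 2 + q ^ 2 + r ^ 2 ≤ (d ^ 2 + e ^ 2 + f ^ 2) * (g ^ 2 + h ^ 2 + i ^ 2) := by
    have : p ^ 2 + q ^ 2 + r ^ 2 = (d ^ 2 + e ^ 2 + f ^ 2) * (g ^ 2 + h ^ 2 + i ^ 2) -
        (d * g + e * h + f * i) ^ 2 := by
      rw [hp, hq, hr]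
      ring
    rw [this]
    linarith [sq_nonneg (d * g + e * h + f * i)]
  have h3 : (d ^ 2 + e ^ 2 + f ^ 2) * (g ^ 2 + h ^ 2 + i ^ 2) ≤ 1 := by
    have h4 : 0 ≤ d ^ 2 + e ^ 2 + f ^ 2 := by positivity
    have h5 : 0 ≤ g ^ 2 + h ^ 2 + i ^ 2 := by positivity
    nlinarith
  have h6 : 0 ≤ p ^ 2 + q ^ 2 + r ^ 2 := by positivity
  have h7 : 0 ≤ a ^ 2 + b ^ 2 + c ^ 2 := by positivity
  have h8 : (a ^ 2 + b ^ 2 + c ^ 2) * (p ^ 2 + q ^ 2 + r ^ 2) ≤ 1 := by nlinarith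
  have h9 : a * p - b * (d * i - f * g) + c * r = a * p + b * q + c * r := by
    rw [hq]
    ring
  rw [h9]
  linarith

theorem thm : Pool.Agent.Helper89.Vol.G_HAD := by
  intro u v w hu hv hw
  have h := had (u 0) (u 1) (u 2) (v 0) (v 1) (v 2) (w 0) (w 1) (w 2) hu hv hw
  have h2 : Matrix.det !![u 0, u 1, u 2; v 0, v 1, v 2; w 0, w 1, w 2] =
      u 0 * (v 1 * w 2 - v 2 * w 1) - u 1 * (v 0 * w 2 - v 2 * w 0) + u 2 * (v 0 * w 1 - v 1 * w 0) := by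
    rw [Matrix.det_fin_three]
    simp
    ring
  rw [h2]
  exact (sq_le_one_iff_abs_le_one _).1 h

end Pool.Agent.Helper48.Vol.PkHAD
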